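import Pool.Agent.Helper855DB.Asym
import Pool.Agent.Helper855DB.Trans

/-! The ball is asymptotically optimal for the eigenvalues of order 2 to N+1, beyond the
Faber-Krahn order. -/

set_option autoImplicit false

open MeasureTheory Pool.Agent.Helper855DB

namespace Pool.Agent.Results.MP_8f7db2_an.AlmostOptimal

/-- The `k`-th Dirichlet Laplacian eigenvalue of an open set, by min-max over smooth compactly
supported functions (the expression of the frozen statement, with `k` in place of `N + 1`). -/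
noncomputable def eig (N k : ℕ) (Ω : Set (EuclideanSpace ℝ (Fin N))) : ℝ :=
  sInf {c : ℝ | ∃ V : Submodule ℝ (EuclideanSpace ℝ (Fin N) → ℝ),
      Module.finrank ℝ V = k ∧
      ∀ v ∈ V, ContDiff ℝ (⊤ : ℕ∞) v ∧ HasCompactSupport v ∧
        tsupport v ⊆ Ω ∧
        ∫ x, ‖fderiv ℝ v x‖ ^ 2 ≤ c * ∫ x, v x ^ 2}

/-- There is an absolute constant `C` such that in every dimension `N`, for all `2 ≤ k ≤ N + 1` and
every open set with the volume of a ball, the `k`-th eigenvalue is at least
`1 - C / (N √(log k))` times that of the ball. -/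
theorem result : ∃ C : ℝ, 0 < C ∧ ∀ (N k : ℕ), 2 ≤ k → k ≤ N + 1 → ∀ (r : ℝ), 0 < r →
    ∀ (Ω : Set (EuclideanSpace ℝ (Fin N))), IsOpen Ω →
      volume Ω = volume (Metric.ball (0 : EuclideanSpace ℝ (Fin N)) r) →
      (1 - C / (N * √(Real.log k))) * eig N k (Metric.ball 0 r) ≤ eig N k Ω := by
  refine ⟨4 * CC, by linarith [CC_ge], ?_⟩
  intro N k hk hkN r hr Ω hΩ hvol
  have hN : 1 ≤ N := by omega
  have hN0 : (0:ℝ) < N := by exact_mod_cast hN
  have hk2 : (2:ℝ) ≤ k := by exact_mod_cast hk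
  have hlog : 0 < Real.log k := Real.log_pos (by linarith)
  have hs : 0 < √(Real.log k) := Real.sqrt_pos.2 hlog
  have hne : Ω.Nonempty := by
    rw [Set.nonempty_iff_ne_empty]
    intro h0
    rw [h0, measure_empty] at hvol
    exact (Metric.measure_ball_pos volume (0 : Sp N) hr).ne hvol
  obtain ⟨c1, hc1⟩ := adm_nonempty hN hΩ hne
  have hne2 : (Adm k Ω).Nonempty := ⟨c1, adm_anti hkN hc1 (by omega)⟩
  have hΛ0 : 0 ≤ lam 1 (Metric.ball (0 : Sp N) r) := lam_nonneg le_rfl
  have hkey : ∀ c ∈ Adm k Ω,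
      (1 - 4 * CC / (N * √(Real.log k))) * lam k (Metric.ball (0 : Sp N) r) ≤ c := by
    intro c hc
    have h1 := level_lower hN hr hΩ hvol.le hk hc
      (fun u hu => fk_all hN hr hu hvol.le) le_rfl
    rw [sub_self, mul_zero, add_zero] at h1
    have hB0 : 0 ≤ lam k (Metric.ball (0 : Sp N) r) := lam_nonneg (by omega)
    have hB1 : lam k (Metric.ball (0 : Sp N) r) ≤
        (1 + 4 / N) * lam 1 (Metric.ball (0 : Sp N) r) :=
      (lam_mono_dim hkN (by omega) (adm_ball_nonempty hN hr)).trans (ball_level hN hr)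
    have hCC := CC_ge
    have e : 4 * CC / (N * √(Real.log k)) = 4 / N * (CC / √(Real.log k)) := by
      field_simp
    rw [e]
    set x : ℝ := 4 / N * (CC / √(Real.log k)) with hx
    have hx0 : 0 ≤ x := by positivity
    have e2 : 1 + 4 / (N:ℝ) * (1 - CC / √(Real.log k)) = 1 + 4 / N - x := by rw [hx]; ring
    rw [e2] at h1
    rcases le_or_gt x 1 with h2 | h2
    · calc (1 - x) * lam k (Metric.ball (0 : Sp N) r)
          ≤ (1 - x) * ((1 + 4 / N) * lam 1 (Metric.ball (0 : Sp N) r)) :=
            mul_le_mul_of_nonneg_left hB1 (by linarith)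
        _ ≤ lam 1 (Metric.ball (0 : Sp N) r) * (1 + 4 / N - x) := by
            have h3 : 0 ≤ x * (4 / N) * lam 1 (Metric.ball (0 : Sp N) r) := by positivity
            nlinarith
        _ ≤ c := h1
    · have h3 := adm_nonneg (by omega : 1 ≤ k) hc
      nlinarith
  exact le_csInf hne2 hkey

end Pool.Agent.Results.MP_8f7db2_an.AlmostOptimal
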