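import Pool.Agent.Helper855DB.Conn

/-! In all large dimensions every disconnected open set is strictly improved by a connected one of
the same volume. -/

set_option autoImplicit false

open MeasureTheory Pool.Agent.Helper855DB Set Filter

namespace Pool.Agent.Results.MP_8f7db2_an.Disconnected

/-- The `k`-th Dirichlet Laplacian eigenvalue of an open set, by min-max over smooth compactly
supported functions (the expression of the frozen statement, with `k` in place of `N + 1`). -/
noncomputable def eig (N k : ℕ) (Ω : Set (EuclideanSpace ℝ (Fin N))) : ℝ :=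
  sInf {c : ℝ | ∃ V : Submodule ℝ (EuclideanSpace ℝ (Fin N) → ℝ),
      Module.finrank ℝ V = k ∧
      ∀ v ∈ V, ContDiff ℝ (⊤ : ℕ∞) v ∧ HasCompactSupport v ∧
        tsupport v ⊆ Ω ∧
        ∫ x, ‖fderiv ℝ v x‖ ^ 2 ≤ c * ∫ x, v x ^ 2}

/-- the dimension threshold -/
theorem threshold : ∃ N₀ : ℕ, ∀ N : ℕ, N₀ ≤ N → 64 * CC < √(Real.log (N + 1)) := by
  have h1 : Tendsto (fun N : ℕ => √(Real.log ((N:ℝ) + 1))) atTop atTop := by
    refine Real.tendsto_sqrt_atTop.comp (Real.tendsto_log_atTop.comp ?_)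
    exact tendsto_atTop_add_const_right _ _ tendsto_natCast_atTop_atTop
  have h2 := h1.eventually_gt_atTop (64 * CC)
  exact eventually_atTop.1 h2

/-- in a large dimension a set that beats the ball has a dominating component -/
theorem dominating {N : ℕ} (hN : 1 ≤ N) (hs : 64 * CC < √(Real.log (N + 1))) {r : ℝ} (hr : 0 < r)
    {Ω : Set (Sp N)} (hΩ : IsOpen Ω) (hne : Ω.Nonempty)
    (hvol : volume Ω = volume (Metric.ball (0 : Sp N) r))
    (hle : lam (N + 1) Ω ≤ lam (N + 1) (Metric.ball (0 : Sp N) r)) :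
    ∃ x ∈ Ω, ENNReal.ofReal (15 / 16) * volume (Metric.ball (0 : Sp N) r) <
      volume (connectedComponentIn Ω x) := by
  by_contra hcon
  push Not at hcon
  have hN0 : (0:ℝ) < N := by exact_mod_cast hN
  have hCC := CC_ge
  set Λ := lam 1 (Metric.ball (0 : Sp N) r) with hΛ
  have hΛ0 : 0 < Λ := lam_ball_pos hN hr
  have hs0 : 0 < √(Real.log (N + 1)) := by linarith
  have hlog : 0 < Real.log (N + 1) := Real.sqrt_pos.1 hs0
  have hlog8 : 8 ≤ Real.log (N + 1) := by
    have h1 := Real.sq_sqrt hlog.le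
    nlinarith
  set L : ℝ := Λ * (15 / 16 : ℝ) ^ (-(2 / (N:ℝ))) with hL
  have hLb : ∀ u, Test Ω u → L * Ma u ≤ En u := by
    intro u hu
    refine comps hΩ (fun x hx w hw => ?_) hu
    exact fk_all_vol hN hr hw (by norm_num) (hcon x hx)
  have hpow : 1 + 1 / 8 / (N:ℝ) ≤ (15 / 16 : ℝ) ^ (-(2 / (N:ℝ))) := by
    rw [Real.rpow_def_of_pos (by norm_num)]
    have h1 := Real.add_one_le_exp (Real.log (15 / 16) * -(2 / (N:ℝ)))
    have h2 : Real.log (15 / 16) ≤ -(1 / 16) := by
      have := Real.log_le_sub_one_of_pos (show (0:ℝ) < 15 / 16 by norm_num)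
      linarith
    have h3 : 1 / 8 / (N:ℝ) ≤ Real.log (15 / 16) * -(2 / (N:ℝ)) := by
      have h4 : (0:ℝ) ≤ 2 / N := by positivity
      have h5 := mul_le_mul_of_nonneg_right h2 h4
      have e : 1 / 8 / (N:ℝ) = 1 / 16 * (2 / N) := by ring
      rw [e]; linarith
    linarith
  have hLΛ : Λ * (1 + 1 / 8 / N) ≤ L := mul_le_mul_of_nonneg_left hpow hΛ0.le
  have hΛL : Λ ≤ L := by
    have : 0 ≤ Λ * (1 / 8 / N) := by positivity
    linarith
  have hkey : ∀ c ∈ Adm (N + 1) Ω, Λ * (1 + 4 / N) +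
      Λ / N * (1 / 16 - 4 * CC / √(Real.log (N + 1))) ≤ c := by
    intro c hc
    have h1 := level_lower hN hr hΩ hvol.le (by omega : 2 ≤ N + 1) hc hLb (by rw [← hΛ]; exact hΛL)
    rw [← hΛ] at h1
    push_cast at h1
    have h2 : (1:ℝ) / 2 ≤ 1 - 4 / Real.log (N + 1) := by
      have : 4 / Real.log (N + 1) ≤ 1 / 2 := by
        rw [div_le_iff₀ hlog]; linarith
      linarith
    have h3 : 1 / 2 * (L - Λ) ≤ (1 - 4 / Real.log (N + 1)) * (L - Λ) :=
      mul_le_mul_of_nonneg_right h2 (by linarith)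
    have e : Λ * (1 + 4 / N * (1 - CC / √(Real.log (N + 1)))) =
        Λ * (1 + 4 / N) - Λ / N * (4 * CC / √(Real.log (N + 1))) := by ring
    have e2 : Λ * (1 + 1 / 8 / (N:ℝ)) = Λ + 1 / 8 * (Λ / N) := by ring
    have e3 : Λ / N * (1 / 16 - 4 * CC / √(Real.log (N + 1))) =
        1 / 16 * (Λ / N) - Λ / N * (4 * CC / √(Real.log (N + 1))) := by ring
    rw [e] at h1
    rw [e3]
    linarith
  have h1 : Λ * (1 + 4 / N) + Λ / N * (1 / 16 - 4 * CC / √(Real.log (N + 1))) ≤ lam (N + 1) Ω :=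
    le_csInf (adm_nonempty hN hΩ hne) hkey
  have h2 : lam (N + 1) (Metric.ball (0 : Sp N) r) ≤ (1 + 4 / N) * Λ := ball_level hN hr
  have h3 : 4 * CC / √(Real.log (N + 1)) < 1 / 16 := by
    rw [div_lt_iff₀ hs0]; linarith
  have h4 : 0 < Λ / N * (1 / 16 - 4 * CC / √(Real.log (N + 1))) := by
    have : 0 < 1 / 16 - 4 * CC / √(Real.log (N + 1)) := by linarith
    positivity
  linarith

/-- There is a dimension from which on every nonempty open set of finite volume that is not
connected has an `(N + 1)`-st eigenvalue strictly larger than that of some connected open set of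
the same volume. In particular every open minimizer of the `(N + 1)`-st eigenvalue under a volume
constraint is connected. -/
theorem result : ∃ N₀ : ℕ, ∀ N : ℕ, N₀ ≤ N →
    ∀ (Ω : Set (EuclideanSpace ℝ (Fin N))), IsOpen Ω → Ω.Nonempty → volume Ω ≠ ⊤ →
      ¬ IsConnected Ω →
      ∃ Ω' : Set (EuclideanSpace ℝ (Fin N)), IsOpen Ω' ∧ IsConnected Ω' ∧
        volume Ω' = volume Ω ∧ eig N (N + 1) Ω' < eig N (N + 1) Ω := by
  obtain ⟨N₀, hN₀⟩ := threshold
  refine ⟨N₀ + 1, ?_⟩
  intro N hNN Ω hΩ hne hfin hdisc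
  have hN : 1 ≤ N := by omega
  have hs := hN₀ N (by omega)
  have hN0 : (0:ℝ) < N := by exact_mod_cast hN
  have hvol0 : volume Ω ≠ 0 := (hΩ.measure_pos volume hne).ne'
  obtain ⟨r, hr, hvr⟩ := exists_ball hN hvol0 hfin
  set Λ := lam 1 (Metric.ball (0 : Sp N) r) with hΛ
  have hΛ0 : 0 < Λ := lam_ball_pos hN hr
  by_cases hcase : lam (N + 1) (Metric.ball (0 : Sp N) r) < lam (N + 1) Ω
  · exact ⟨Metric.ball 0 r, Metric.isOpen_ball, ⟨⟨0, Metric.mem_ball_self hr⟩,
      (convex_ball _ _).isPreconnected⟩, hvr, hcase⟩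
  push Not at hcase
  obtain ⟨x, hx, hbig⟩ := dominating hN hs hr hΩ hne hvr.symm hcase
  set U := connectedComponentIn Ω x with hU
  set V := Ω \ U with hV
  have hUΩ : U ⊆ Ω := connectedComponentIn_subset Ω x
  have hUo : IsOpen U := hΩ.connectedComponentIn
  have hVo : IsOpen V := comp_rest hΩ x
  have hUne : U.Nonempty := ⟨x, mem_connectedComponentIn hx⟩
  have hUc : IsConnected U := isConnected_connectedComponentIn_iff.2 hx
  have hdis : Disjoint U V := disjoint_sdiff_right
  have hun : U ∪ V = Ω := union_sdiff_cancel hUΩ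
  have hVne : V.Nonempty := by
    rw [Set.nonempty_iff_ne_empty]
    intro h0
    apply hdisc
    rw [h0, union_empty] at hun
    rwa [← hun]
  have hadd : volume Ω = volume U + volume V := by
    rw [← hun, measure_union hdis hVo.measurableSet]
  have hUt : volume U ≠ ⊤ := ne_top_of_le_ne_top hfin (measure_mono hUΩ)
  have hVt : volume V ≠ ⊤ := ne_top_of_le_ne_top hfin (measure_mono sdiff_subset)
  set vΩ : ℝ := (volume Ω).toReal with hvΩ
  set vU : ℝ := (volume U).toReal with hvU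
  set vV : ℝ := (volume V).toReal with hvV
  have hvadd : vΩ = vU + vV := by rw [hvΩ, hadd, ENNReal.toReal_add hUt hVt]
  have hvV0 : 0 < vV := ENNReal.toReal_pos (hVo.measure_pos volume hVne).ne' hVt
  have hvU0 : 0 < vU := ENNReal.toReal_pos (hUo.measure_pos volume hUne).ne' hUt
  have hvΩ0 : 0 < vΩ := by linarith
  have hΩof : volume Ω = ENNReal.ofReal vΩ := (ENNReal.ofReal_toReal hfin).symm
  have hUof : volume U = ENNReal.ofReal vU := (ENNReal.ofReal_toReal hUt).symm
  have hVof : volume V = ENNReal.ofReal vV := (ENNReal.ofReal_toReal hVt).symm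
  have hb : 15 / 16 * vΩ < vU := by
    rw [hvr, hΩof, hUof, ← ENNReal.ofReal_mul (by norm_num),
      ENNReal.ofReal_lt_ofReal_iff hvU0] at hbig
    exact hbig
  have hVsmall : volume V ≤ ENNReal.ofReal (1 / 16) * volume (Metric.ball (0 : Sp N) r) := by
    rw [hvr, hΩof, hVof, ← ENNReal.ofReal_mul (by norm_num)]
    exact ENNReal.ofReal_le_ofReal (by linarith)
  set M : ℝ := Λ * (1 / 16 : ℝ) ^ (-(2 / (N:ℝ))) with hM
  have hMlow : ∀ w, Test V w → M * Ma w ≤ En w := fun w hw =>
    fk_all_vol hN hr hw (by norm_num) hVsmall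
  have hMbig : (1 + 4 / N) * Λ < M := by
    have h1 : 1 + 4 / (N:ℝ) < (1 / 16 : ℝ) ^ (-(2 / (N:ℝ))) := by
      rw [Real.rpow_def_of_pos (by norm_num)]
      have h1 := Real.add_one_le_exp (Real.log (1 / 16) * -(2 / (N:ℝ)))
      have h2 : Real.log (1 / 16) < -2 := by
        have e : Real.log (1 / 16) = -(4 * Real.log 2) := by
          rw [one_div, Real.log_inv, show (16:ℝ) = 2 ^ 4 by norm_num, Real.log_pow]
          push_cast; ring
        rw [e]
        have := Real.log_two_gt_d9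
        linarith
      have h3 : 4 / (N:ℝ) < Real.log (1 / 16) * -(2 / (N:ℝ)) := by
        have h4 : (0:ℝ) < 2 / N := by positivity
        have h5 := mul_lt_mul_of_pos_right h2 h4
        have e : 4 / (N:ℝ) = 2 * (2 / N) := by ring
        rw [e]; linarith
      linarith
    have h2 := mul_lt_mul_of_pos_left h1 hΛ0
    rw [hM]; linarith
  have hB : lam (N + 1) (Metric.ball (0 : Sp N) r) ≤ (1 + 4 / N) * Λ := ball_level hN hr
  have hΩM : lam (N + 1) Ω < M := by linarith
  have hΩpos : 0 < lam (N + 1) Ω := by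
    refine lt_of_lt_of_le hΛ0 (le_csInf (adm_nonempty hN hΩ hne) fun c hc => ?_)
    exact le_of_adm (by omega) hc fun u hu => fk_all hN hr hu hvr.ge
  have hUle : lam (N + 1) U ≤ lam (N + 1) Ω := by
    refine le_of_forall_pos_le_add fun ε hε => ?_
    obtain ⟨c, hc, hlt⟩ := exists_lt_of_csInf_lt (adm_nonempty hN hΩ hne)
      (show sInf (Adm (N + 1) Ω) < min (lam (N + 1) Ω + ε) M from
        lt_min (by unfold lam; linarith) hΩM)
    have h1 : c < lam (N + 1) Ω + ε := lt_of_lt_of_le hlt (min_le_left _ _)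
    have h2 : c < M := lt_of_lt_of_le hlt (min_le_right _ _)
    rw [← hun] at hc
    have h3 := adm_split hUo hVo hdis hc h2 hMlow
    have h4 : lam (N + 1) U ≤ c := csInf_le (adm_bdd (by omega)) h3
    linarith
  -- rescale the component
  set a : ℝ := (vU / vΩ) ^ (1 / (N:ℝ)) with ha
  have hq0 : 0 < vU / vΩ := by positivity
  have hq1 : vU / vΩ < 1 := by rw [div_lt_one hvΩ0]; linarith
  have ha0 : 0 < a := Real.rpow_pos_of_pos hq0 _
  have ha1 : a < 1 := Real.rpow_lt_one hq0.le hq1 (by positivity)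
  have haN : a ^ N = vU / vΩ := by
    rw [ha, ← Real.rpow_natCast, ← Real.rpow_mul hq0.le, one_div, inv_mul_cancel₀ hN0.ne',
      Real.rpow_one]
  refine ⟨{y | a • (y - 0) ∈ U}, ?_, ?_, ?_, ?_⟩
  · exact hUo.preimage (AH ha0.ne' (0 : Sp N)).continuous
  · exact (AH ha0.ne' (0 : Sp N)).isConnected_preimage.2 hUc
  · have h1 : {y : Sp N | a • (y - 0) ∈ U} = (a • ·) ⁻¹' U := by
      ext y; simp
    have hfr : Module.finrank ℝ (Sp N) = N := by simp
    rw [h1, Measure.addHaar_preimage_smul _ ha0.ne', hfr, haN, hUof, hΩof,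
      abs_of_pos (by positivity), ← ENNReal.ofReal_mul (by positivity)]
    congr 1; field_simp
  · have h1 : lam (N + 1) {y : Sp N | a • (y - 0) ∈ U} / a ^ 2 ≤ lam (N + 1) U := by
      refine le_csInf (adm_nonempty hN hUo hUne) fun c hc => ?_
      rw [div_le_iff₀ (by positivity), mul_comm]
      exact csInf_le (adm_bdd (by omega)) (adm_affine ha0 0 hc)
    rw [div_le_iff₀ (by positivity)] at h1
    have h2 : lam (N + 1) {y : Sp N | a • (y - 0) ∈ U} < lam (N + 1) Ω := by
      have h3 : a ^ 2 < 1 := by nlinarith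
      have h4 : 0 ≤ lam (N + 1) U := lam_nonneg (by omega)
      nlinarith
    exact h2

end Pool.Agent.Results.MP_8f7db2_an.Disconnected
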