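import Pool.Agent.Helper855DB.Asym
import Pool.Agent.Helper855DB.Trans

/-! The inequality of the question holds exactly for all open sets whose first eigenvalue is not
almost minimal. -/

set_option autoImplicit false

open MeasureTheory Pool.Agent.Helper855DB

namespace Pool.Agent.Results.MP_8f7db2_an.LargeFirst

/-- The `k`-th Dirichlet Laplacian eigenvalue of an open set, by min-max over smooth compactly
supported functions (the expression of the frozen statement, with `k` in place of `N + 1`). -/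
noncomputable def eig (N k : ℕ) (Ω : Set (EuclideanSpace ℝ (Fin N))) : ℝ :=
  sInf {c : ℝ | ∃ V : Submodule ℝ (EuclideanSpace ℝ (Fin N) → ℝ),
      Module.finrank ℝ V = k ∧
      ∀ v ∈ V, ContDiff ℝ (⊤ : ℕ∞) v ∧ HasCompactSupport v ∧
        tsupport v ⊆ Ω ∧
        ∫ x, ‖fderiv ℝ v x‖ ^ 2 ≤ c * ∫ x, v x ^ 2}

/-- There is an absolute constant `C` such that in every dimension `N`, every open set with the
volume of a ball whose first eigenvalue is at least `1 + C / (N √(log (N + 1)))` times that of the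
ball has `(N + 1)`-st eigenvalue at least that of the ball. -/
theorem result : ∃ C : ℝ, 0 < C ∧ ∀ (N : ℕ), 1 ≤ N → ∀ (r : ℝ), 0 < r →
    ∀ (Ω : Set (EuclideanSpace ℝ (Fin N))), IsOpen Ω →
      volume Ω = volume (Metric.ball (0 : EuclideanSpace ℝ (Fin N)) r) →
      (1 + C / (N * √(Real.log (N + 1)))) * eig N 1 (Metric.ball 0 r) ≤ eig N 1 Ω →
      eig N (N + 1) (Metric.ball 0 r) ≤ eig N (N + 1) Ω := by
  refine ⟨8 * CC, by linarith [CC_ge], ?_⟩
  intro N hN r hr Ω hΩ hvol hlarge
  have hN0 : (0:ℝ) < N := by exact_mod_cast hN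
  have hN1 : (1:ℝ) ≤ N := by exact_mod_cast hN
  have hlog : 0 < Real.log (N + 1) := Real.log_pos (by linarith)
  have hs : 0 < √(Real.log (N + 1)) := Real.sqrt_pos.2 hlog
  have hCC := CC_ge
  have hne : Ω.Nonempty := by
    rw [Set.nonempty_iff_ne_empty]
    intro h0
    rw [h0, measure_empty] at hvol
    exact (Metric.measure_ball_pos volume (0 : Sp N) hr).ne hvol
  have hne2 : (Adm (N + 1) Ω).Nonempty := adm_nonempty hN hΩ hne
  set Λ := lam 1 (Metric.ball (0 : Sp N) r) with hΛ
  have hΛ0 : 0 ≤ Λ := lam_nonneg le_rfl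
  set μ := lam 1 Ω with hμ
  have hl : (1 + 8 * CC / (N * √(Real.log (N + 1)))) * Λ ≤ μ := hlarge
  have hx0 : 0 ≤ 8 * CC / (N * √(Real.log (N + 1))) := by positivity
  have hΛμ : Λ ≤ μ := by nlinarith
  have hB1 : lam (N + 1) (Metric.ball (0 : Sp N) r) ≤ (1 + 4 / N) * Λ := ball_level hN hr
  have hkey : ∀ c ∈ Adm (N + 1) Ω, lam (N + 1) (Metric.ball (0 : Sp N) r) ≤ c := by
    intro c hc
    refine hB1.trans ?_
    rcases le_or_gt 8 (Real.log (N + 1)) with h8 | h8
    · have h1 := level_lower hN hr hΩ hvol.le (by omega : 2 ≤ N + 1) hc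
        (fun u hu => lam_one_le hu) (by rw [← hΛ, ← hμ]; exact hΛμ)
      rw [← hΛ, ← hμ] at h1
      push_cast at h1
      have h2 : (1:ℝ) / 2 ≤ 1 - 4 / Real.log (N + 1) := by
        have : 4 / Real.log (N + 1) ≤ 1 / 2 := by
          rw [div_le_iff₀ hlog]; linarith
        linarith
      have h3 : 1 / 2 * (μ - Λ) ≤ (1 - 4 / Real.log (N + 1)) * (μ - Λ) :=
        mul_le_mul_of_nonneg_right h2 (by linarith)
      have e : Λ * (1 + 4 / N * (1 - CC / √(Real.log (N + 1)))) =
          (1 + 4 / N) * Λ - 1 / 2 * (8 * CC / (N * √(Real.log (N + 1))) * Λ) := by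
        field_simp; ring
      linarith
    · have h1 : μ ≤ c := le_of_adm (by omega) hc fun u hu => lam_one_le hu
      have h2 : √(Real.log (N + 1)) ≤ 3 := by
        rw [show (3:ℝ) = √(9:ℝ) by
          rw [show (9:ℝ) = 3 ^ 2 by norm_num]; exact (Real.sqrt_sq (by norm_num)).symm]
        exact Real.sqrt_le_sqrt (by linarith)
      have h3 : 4 / (N:ℝ) ≤ 8 * CC / (N * √(Real.log (N + 1))) := by
        rw [div_le_div_iff₀ hN0 (by positivity)]
        have h4 : 4 * √(Real.log (N + 1)) ≤ 8 * CC := by nlinarith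
        have := mul_le_mul_of_nonneg_left h4 hN0.le
        linarith
      have h4 := mul_le_mul_of_nonneg_right h3 hΛ0
      linarith
  exact le_csInf hne2 hkey

end Pool.Agent.Results.MP_8f7db2_an.LargeFirst
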